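import Pool.Agent.Run7.h142.GP.RelDefs
import Pool.Agent.TH132.P.Defs

/-!
# The formula of Tate for the orders of the poles for products: definitions (helper142)
-/

set_option autoImplicit false

open CategoryTheory AlgebraicGeometry

universe u v

namespace Pool.Agent.Run7.h142.GP

open Pool.Agent.H914 VarClass Obj WeilCohomology Pool.Agent.W534 Pool.Agent.TH132.P

/-- Let `δ j` be the defect of `U` in codimension `j`: the order of the pole at `j` of the zeta function
of `U`, over sufficiently large finite fields, minus the rank of the cycles modulo numerical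
equivalence. The rank of the cycles of codimension `c` on `Z × U` modulo numerical equivalence is the
sum over `i + j = c` of the products of the ranks for `Z` and `U` in the codimensions `i` and `j`,
and the defect of `Z × U` in codimension `c` is the sum over `i + j = c` of the products of the rank
for `Z` in codimension `i` and of the defect `δ j`; so the formula of Tate holds for `Z × U` in
codimension `c` if and only if it holds for `U` in codimension `j` for all `i + j = c` such that there
are cycles of codimension `i` on `Z` which are not numerically trivial. -/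
def DefectsOfTimes {k : Type u} [Field k] {𝒱 : VarClass k} {ops : CycleOps 𝒱}
    {W : WeilCohomology.{u, v} ops} {p : ℕ} (Φ : FrobSystem W p) (σ : W.K →+* ℂ)
    (Z U : 𝒱.Obj) : Prop :=
  ∃ δ : ℕ → ℕ, (∀ j ≤ U.dim, PoleDefect Φ σ U j (δ j)) ∧ ∀ c ≤ (Z.prod U).dim,
    numRank ops (Z.prod U) c = conv Z.dim U.dim (numRank ops Z) (numRank ops U) c ∧
    PoleDefect Φ σ (Z.prod U) c (conv Z.dim U.dim (numRank ops Z) δ c) ∧
    (PoleFormula Φ σ (Z.prod U) c ↔ ∀ i ≤ Z.dim, ∀ j ≤ U.dim, i + j = c →
      numRank ops Z i ≠ 0 → PoleFormula Φ σ U j)

end Pool.Agent.Run7.h142.GP
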