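import Pool.Agent.TH132.P.Main
import Pool.Agent.TH121.KT.Geo

/-!
# Generalised Tate classes on a product: the version for `TateTimesP` (helper142)

Adapted from the starting files `TH132/P/TateT` and `TH132/P/Main`.
-/

set_option autoImplicit false

open CategoryTheory AlgebraicGeometry
open scoped TensorProduct

universe u v

namespace Pool.Agent.Run7.h142.GP

open Pool.Agent.H914 Pool.Agent.H914.VarClass Pool.Agent.H914.VarClass.Obj
  Pool.Agent.H914.WeilCohomology Pool.Agent.H281R3.HT Pool.Agent.W552 Pool.Agent.W534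
  Pool.Agent.H447 Pool.Agent.TH132.A Pool.Agent.W458.RK Pool.Agent.W458.MF
  Pool.Agent.TH132.P Pool.Agent.TH121.KT

variable {k : Type u} [Field k] {𝒱 : VarClass k} {ops : CycleOps 𝒱}
  {W : WeilCohomology.{u, v} ops} {X U Z : 𝒱.Obj} {p : ℕ} {Φ : FrobSystem W p}
  {σ : W.K →+* ℂ} {PP : W.K → Prop}

/-- The splitting with classes of cycles. -/
theorem splits_of_P (hT : TateTimesP Φ PP X) {s : ℕ} (hs : 0 < s) {V : Type v} [AddCommGroup V]
    [Module W.K V] [Module.Finite W.K V] {G : Module.End W.K V}
    (hG : ∀ ν, G.HasEigenvalue ν → PP ν) {c : ℤ} {a : ℕ} {x : W.H X ⊗[W.K] V}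
    (hx : Killed (TensorProduct.map (frob Φ X s) G) ((card Φ X s : W.K) ^ c) a x) :
    x ∈ Submodule.span W.K {w | ∃ (i : ℕ) (y : W.H X) (v : V),
      y ∈ {y | ∃ z, X.IsCyc i z ∧ y = W.cl X z} ∧
        Killed G ((card Φ X s : W.K) ^ (c - i)) a v ∧ w = y ⊗ₜ v} := by
  have h1 := hT s hs V G hG c a x hx
  clear hx
  induction h1 using Submodule.span_induction with
  | mem w hw =>
    obtain ⟨i, y, v, hy, hv, rfl⟩ := hw
    rw [cycSub] at hy
    induction hy using Submodule.span_induction with
    | mem y hy =>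
      obtain ⟨z', hz', rfl⟩ := hy
      exact Submodule.subset_span ⟨i, _, v, ⟨z', hz', rfl⟩, hv, rfl⟩
    | zero => rw [TensorProduct.zero_tmul]; exact Submodule.zero_mem _
    | add x y _ _ hx hy => rw [TensorProduct.add_tmul]; exact Submodule.add_mem _ hx hy
    | smul c x _ hx =>
      rw [← TensorProduct.smul_tmul']; exact Submodule.smul_mem _ _ hx
  | zero => exact Submodule.zero_mem _
  | add x y _ _ hx hy => exact Submodule.add_mem _ hx hy
  | smul c x _ hx => exact Submodule.smul_mem _ _ hx

variable {κ : Type} [Fintype κ] [DecidableEq κ] {e b : κ → W.H X} {d : κ → ℕ}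

/-- **The generalised Tate classes on the product.** -/
theorem genT_eqP [IsAlgClosed W.K] (h : HFam W X e b d) (hT : TateTimesP Φ PP X)
    (hpow : ∀ ν (n : ℕ), 0 < n → PP ν → PP (ν ^ n))
    (hU : ∀ ν, Module.End.HasEigenvalue (W.map (Φ.Fr U)).toLinearMap ν → PP ν) (c : ℕ) :
    genT Φ (X.prod U) c = combs e d (genT Φ U) c := by
  obtain ⟨A, B, B', hA, hB, hB', e1, e2, h1⟩ := exists_levels Φ X U
  ext z
  constructor
  · intro hz
    obtain ⟨s, hs, hz'⟩ := (mem_genT Φ).1 hz
    obtain ⟨⟨n, hn⟩, hzg⟩ := (mem_genTate Φ).1 (genTate_mono' Φ s A c hz')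
    obtain ⟨x, rfl⟩ := (W.kunneth X U).2 z
    rw [pow_kunneth h1] at hn
    have h2 : (((TensorProduct.map (frob Φ X (B * s)) (frob Φ U (B' * s)) -
        ((card Φ (X.prod U) (A * s) : W.K) ^ c) •
          (1 : Module.End W.K (W.H X ⊗[W.K] W.H U))) ^ n) x) = 0 := by
      apply (W.kunneth X U).1
      rw [hn, map_zero]
    have hG : ∀ ν, Module.End.HasEigenvalue (frob Φ U (B' * s)) ν → PP ν := by
      rw [frob_pow_eq']
      exact PP_pow hU hpow (Nat.mul_pos hB' hs)
    have h3 := splits_of_P hT (Nat.mul_pos hB hs) hG (c := (c : ℤ)) (a := n) (x := x) (by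
      refine ⟨1, one_pos, ?_⟩
      rw [pow_one, pow_one, zpow_natCast]
      rw [card_eq e1 s] at h2
      exact h2)
    have ec : (card Φ X (B * s) : W.K) = (card Φ U (B' * s) : W.K) := by
      rw [W534.card, W534.card]
      congr 2
      calc Φ.e X * (B * s) = (Φ.e X * B) * s := by ring
        _ = Φ.e U * (B' * s) := by rw [← e1, e2]; ring
    rw [ec] at h3
    rw [h.mem_combs_iff]
    have hspan : kunnethMap (W.map (fst X U)) (W.map (snd X U)) x ∈
        Submodule.span W.K {w | ∃ (i : ℕ) (x : W.H X) (y : W.H U), x ∈ algClasses W X i ∧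
          Killed (frob Φ U (B' * s)) ((card Φ U (B' * s) : W.K) ^ ((c : ℤ) - i)) n y ∧
            w = ext W x y} := by
      clear h2 hn hzg hz hz'
      induction h3 using Submodule.span_induction with
      | mem w hw =>
        obtain ⟨i, y, v, ⟨z', hz', rfl⟩, hv, rfl⟩ := hw
        exact Submodule.subset_span ⟨i, _, v, ⟨z', hz', rfl⟩, hv, rfl⟩
      | zero => rw [map_zero]; exact Submodule.zero_mem _
      | add x y _ _ hx hy => rw [map_add]; exact Submodule.add_mem _ hx hy
      | smul c x _ hx => rw [map_smul]; exact Submodule.smul_mem _ _ hx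
    constructor
    · intro l
      have hdl := h.hd l
      have h4 : cf W (b l) (kunnethMap (W.map (fst X U)) (W.map (snd X U)) x) ∈
          Submodule.span W.K {v | Killed (frob Φ U (B' * s))
            ((card Φ U (B' * s) : W.K) ^ ((c : ℤ) - d l)) n v} := by
        generalize kunnethMap (W.map (fst X U)) (W.map (snd X U)) x = w at hspan
        induction hspan using Submodule.span_induction with
        | mem w hw =>
          obtain ⟨i, y, v, hy, hv, rfl⟩ := hw
          rw [cf_ext (H914.span_gr (h.hb l))]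
          by_cases hi : i = d l
          · subst hi
            exact Submodule.smul_mem _ _ (Submodule.subset_span hv)
          · rw [W.tr_eq_zero (W.mul_mem (alg_gr hy) (H914.span_gr (h.hb l))) (by omega),
              zero_smul]
            exact Submodule.zero_mem _
        | zero => rw [map_zero]; exact Submodule.zero_mem _
        | add x y _ _ hx hy => rw [map_add]; exact Submodule.add_mem _ hx hy
        | smul c x _ hx => rw [map_smul]; exact Submodule.smul_mem _ _ hx
      by_cases hl : d l ≤ c
      · rw [comp, if_pos hl]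
        obtain ⟨M, hM, h5⟩ := killed_span h4
        refine (mem_genT Φ).2 ⟨B' * s * M, Nat.mul_pos (Nat.mul_pos hB' hs) hM, ?_⟩
        refine (mem_genTate Φ).2 ⟨⟨n, ?_⟩, ?_⟩
        · rw [frob_mul_eq, card_mul_eq, Nat.cast_pow, pow_right_comm]
          rwa [show ((c : ℤ) - d l) = ((c - d l : ℕ) : ℤ) by omega, zpow_natCast] at h5
        · exact (cf_mem (H914.span_gr (h.hb l)) hzg).1 _ (by omega)
      · rw [comp, if_neg hl]
        rw [(cf_mem (H914.span_gr (h.hb l)) hzg).2 (by omega)]
        exact Submodule.zero_mem _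
    · refine h.rep ?_
      refine Submodule.span_mono ?_ hspan
      rintro _ ⟨i, x, y, hx, -, rfl⟩
      exact ⟨x, y, AS.of hx, rfl⟩
  · intro hz
    obtain ⟨v, hv, rfl⟩ := mem_combs.1 hz
    refine Submodule.sum_mem _ fun l _ => ?_
    have h2 := hv l
    by_cases hl : d l ≤ c
    · rw [comp, if_pos hl] at h2
      obtain ⟨s, hs, h3⟩ := (mem_genT Φ).1 h2
      obtain ⟨t, ht, h4⟩ := exists_span_eig Φ X (d l)
      have h5 := h4 _ (h.he l)
      have h6 := span_eig_mul' Φ h5 (B * s)
      obtain ⟨⟨n, hn⟩, hvg⟩ := (mem_genTate Φ).1 (genTate_mono Φ s (B' * t) _ h3)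
      rw [show s * (B' * t) = B' * (s * t) by ring] at hn
      rw [show B * s * t = B * (s * t) by ring] at h6
      refine (mem_genT Φ).2 ⟨A * (s * t), Nat.mul_pos hA (Nat.mul_pos hs ht), ?_⟩
      refine (mem_genTate Φ).2 ⟨⟨n, ?_⟩, ?_⟩
      · have e3 : ext W (e l) (v l) = kunnethMap (W.map (fst X U)) (W.map (snd X U))
            (e l ⊗ₜ[W.K] v l) := rfl
        rw [e3, pow_kunneth h1]
        have e4 : ∀ (n : ℕ) (y : W.H U), ((TensorProduct.map (frob Φ X (B * (s * t)))
            (frob Φ U (B' * (s * t))) - ((card Φ (X.prod U) (A * (s * t)) : W.K) ^ c) •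
              (1 : Module.End W.K (W.H X ⊗[W.K] W.H U))) ^ n) (e l ⊗ₜ[W.K] y) =
            ((card Φ X (B * (s * t)) : W.K) ^ (d l)) ^ n • (e l ⊗ₜ[W.K]
              (((frob Φ U (B' * (s * t)) - ((card Φ U (B' * (s * t)) : W.K) ^ (c - d l)) •
                (1 : Module.End W.K (W.H U))) ^ n) y)) := by
          intro n
          induction n with
          | zero => intro y; rw [pow_zero, pow_zero, pow_zero, one_smul]; rfl
          | succ n ih =>
            intro y
            rw [pow_succ, Module.End.mul_apply]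
            have e5 : (TensorProduct.map (frob Φ X (B * (s * t)))
                (frob Φ U (B' * (s * t))) - ((card Φ (X.prod U) (A * (s * t)) : W.K) ^ c) •
                (1 : Module.End W.K (W.H X ⊗[W.K] W.H U))) (e l ⊗ₜ[W.K] y) =
                ((card Φ X (B * (s * t)) : W.K) ^ (d l)) • (e l ⊗ₜ[W.K]
                ((frob Φ U (B' * (s * t)) - ((card Φ U (B' * (s * t)) : W.K) ^ (c - d l)) •
                (1 : Module.End W.K (W.H U))) y)) := by
              rw [LinearMap.sub_apply, LinearMap.smul_apply, Module.End.one_apply,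
                TensorProduct.map_tmul, h6, LinearMap.sub_apply, LinearMap.smul_apply,
                Module.End.one_apply, TensorProduct.tmul_sub, smul_sub,
                TensorProduct.smul_tmul', TensorProduct.tmul_smul, smul_smul]
              congr 2
              rw [card_eq e1 (s * t), ← card_eq e2 (s * t), card_eq e1 (s * t), ← pow_add,
                show d l + (c - d l) = c by omega]
            rw [e5, map_smul, ih, smul_smul, pow_succ' (((card Φ X (B * (s * t)) : W.K)) ^ d l),
              pow_succ (frob Φ U (B' * (s * t)) - _), Module.End.mul_apply]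
        rw [e4, hn, TensorProduct.tmul_zero, smul_zero, map_zero]
      · have := W.mul_mem (W.map_mem (fst X U) (H914.span_gr (h.he l)))
          (W.map_mem (snd X U) hvg)
        rwa [show 2 * d l + 2 * (c - d l) = 2 * c by omega] at this
    · rw [comp, if_neg hl] at h2
      rw [(Submodule.mem_bot _).1 h2, ext_zero_right]
      exact Submodule.zero_mem _

end Pool.Agent.Run7.h142.GP
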