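import Pool.Agent.Run7.h142.GT.Times
import Pool.Agent.Run7.h142.GP.Defs
import Pool.Agent.Run7.h142.GP.TateT

/-!
# The formula of Tate for the orders of the poles for the products (helper142)
-/

set_option autoImplicit false
set_option linter.unusedSectionVars false

open CategoryTheory AlgebraicGeometry NumberField
open scoped TensorProduct
open Pool.Agent.W552 hiding cj cj_cj

universe u v

namespace Pool.Agent.Run7.h142.GP

open Pool.Agent.H914 Pool.Agent.H914.VarClass Pool.Agent.H914.VarClass.Obj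
  Pool.Agent.H914.WeilCohomology Pool.Agent.H281R3.HT Pool.Agent.W534 Pool.Agent.H447
  Pool.Agent.W458.RK Pool.Agent.W458.MF Pool.Agent.TH132.A Pool.Agent.TH132.P
  Pool.Agent.TH121.KT Pool.Agent.Run7.h142.LT Pool.Agent.Run7.h142.GT

section times

variable {k : Type u} [Field k] {𝒱 : VarClass k} {ops : CycleOps 𝒱}
  {W : WeilCohomology.{u, v} ops} {X U Z : 𝒱.Obj} {p : ℕ} {Φ : FrobSystem W p}
  {σ : W.K →+* ℂ} {PP : W.K → Prop}

/-- **The formula for the defects of the product.** -/
theorem defects_of_tateTimesP [IsAlgClosed W.K] (hp : 1 < p)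
    (hRH : ∀ Z : 𝒱.Obj, RiemannHyp Φ σ Z) (hT : TateTimesP Φ PP X) (h1 : PP 1)
    (hpow : ∀ ν (n : ℕ), 0 < n → PP ν → PP (ν ^ n))
    (hrat : ∀ z : W.H (X.prod U), AS W (X.prod U) z → z ∈ tens W X U)
    (hU : ∀ ν, Module.End.HasEigenvalue (W.map (Φ.Fr U)).toLinearMap ν → PP ν) :
    DefectsOfTimes Φ σ X U := by
  have hD := homEqNum_of_tateTimesP hp hT h1
  obtain ⟨κ, _, _, e, b, d, h⟩ := exists_hFam hD
  have hrank : ∀ c ≤ (X.prod U).dim, numRank ops (X.prod U) c =
      conv X.dim U.dim (numRank ops X) (numRank ops U) c := by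
    intro c hc
    have h1 := finrank_nul (W := W) (Z := X.prod U) c
    rw [← numRank_eq (W := W) hc, h.nul_eq hrat hc, h.span_eq hrat,
      h.finrank_combs' hD (fun j hj => nul_bot hj),
      h.finrank_combs' hD (fun j hj => spanCycles_bot hj)] at h1
    have h2 : conv X.dim U.dim (numRank ops X)
        (fun j => Module.finrank W.K (spanCycles W U (j : ℕ))) c =
        conv X.dim U.dim (numRank ops X)
          (fun j => numRank ops U j + Module.finrank W.K (nul W U j)) c :=
      conv_congr (fun _ _ => rfl) fun j hj => by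
        rw [numRank_eq (W := W) hj]
        exact (finrank_nul (W := W) (Z := U) j).symm
    rw [h2, conv_add] at h1
    exact Nat.add_right_cancel h1
  have hdef : ∀ c ≤ (X.prod U).dim, PoleDefect Φ σ (X.prod U) c
      (conv X.dim U.dim (numRank ops X) (defect Φ U) c) := by
    intro c hc
    refine poleDefect_of hp (hRH _) hc ?_
    rw [genT_eqP h hT hpow hU, h.finrank_combs' hD (fun j hj => genT_bot hj), hrank c hc,
      ← conv_add]
    exact conv_congr (fun _ _ => rfl) fun j hj => (numRank_add_defect U hj).symm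
  have hU' : ∀ j ≤ U.dim, PoleDefect Φ σ U j (defect Φ U j) := fun j hj =>
    poleDefect_of hp (hRH _) hj (numRank_add_defect U hj).symm
  refine ⟨defect Φ U, hU', fun c hc => ⟨hrank c hc, hdef c hc, ?_⟩⟩
  rw [poleFormula_iff_of (hdef c hc), conv_eq_zero]
  refine forall_congr' fun i => forall_congr' fun hi => forall_congr' fun j =>
    forall_congr' fun hj => forall_congr' fun _ => forall_congr' fun _ => ?_
  exact (poleFormula_iff_of (hU' j hj)).symm

end times

variable {k : Type u} [Field k] {𝒱 : VarClass k} {ops : CycleOps 𝒱}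
  {W : WeilCohomology.{u, v} ops} {p : ℕ} [Fact p.Prime] {Φ : FrobSystem W p}
  {σ : W.K →+* ℂ} {ι : Qb →+* PadicAlgCl p}
  {κ : Type} {E : κ → Type} [∀ k, Field (E k)] [∀ k, NumberField (E k)]
  [∀ k, IsCMField (E k)] {s : ℕ} {f : Fin s → κ} {α : ∀ j, E (f j)}
  {X : Fin s → 𝒱.Obj} {d e : Fin s → ℕ} {Z U : 𝒱.Obj}

/-- the degrees are not too large -/
theorem d_le [IsAlgClosed W.K] (hX : HaveWeilNumbers (K := fun j => E (f j)) Φ α X d e)
    (j : Fin s) : d j ≤ 2 * (X j).dim := by
  by_contra h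
  push Not at h
  obtain ⟨x, hx, h1⟩ := (hX.weil j).occurs
    (IsAlgClosed.lift : E (f j) →ₐ[ℚ] W.K).toRingHom
  have h2 := h1.1
  rw [W.gr_eq_bot _ _ h] at h2
  exact hx h2

theorem dim_prodOf (i : Fin s) (l : List (Fin s)) :
    (prodOf X i l).dim = ((i :: l).map fun j => (X j).dim).sum := by
  induction l generalizing i with
  | nil => simp [prodOf]
  | cons j l ih =>
    rw [prodOf, dim_prod, ih]
    rfl

theorem sum_le [IsAlgClosed W.K] (hX : HaveWeilNumbers (K := fun j => E (f j)) Φ α X d e)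
    (l : List (Fin s)) : (l.map d).sum ≤ 2 * (l.map fun j => (X j).dim).sum := by
  induction l with
  | nil => simp
  | cons a l ih =>
    rw [List.map_cons, List.sum_cons, List.map_cons, List.sum_cons]
    have := d_le hX a
    omega

theorem le_dim [IsAlgClosed W.K] (hX : HaveWeilNumbers (K := fun j => E (f j)) Φ α X d e)
    {i : Fin s} {l l' : List (Fin s)} (hl : l = i :: l') :
    (l.map d).sum / 2 ≤ (prodOf X i l').dim := by
  rw [dim_prodOf, ← hl]
  have := sum_le hX l
  omega

theorem homEqNumIn_of (h : HomEqNum W Z) {j : ℕ} (hj : j ≤ Z.dim) : HomEqNumIn W Z j :=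
  fun z hz hw => h j hj z hz hw

theorem list_iff [IsAlgClosed W.K] (hRH : ∀ Z : 𝒱.Obj, RiemannHyp Φ σ Z)
    (hX : HaveWeilNumbers (K := fun j => E (f j)) Φ α X d e) {l : List (Fin s)} {n : ℕ}
    (hn : n = (l.map d).sum / 2) (h : ForList (PoleFormula Φ σ) X l n) : TateForList Φ X l n := by
  intro i l' hl
  have hp := (Fact.out : p.Prime).one_lt
  refine tateTo_one.2 ((pole_iff_tate hp (hRH _) ?_).1 (h i l' hl)).1
  rw [hn]
  exact le_dim hX hl

theorem tate_of_pole [IsAlgClosed W.K] (hRH : ∀ Z : 𝒱.Obj, RiemannHyp Φ σ Z)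
    (hX : HaveWeilNumbers (K := fun j => E (f j)) Φ α X d e) {B : κ → Set (Fin s → ℤ)}
    (h : ForGenerators (PoleFormula Φ σ) X d B) : TateForGenerators Φ X d B := by
  have hp := (Fact.out : p.Prime).one_lt
  refine ⟨fun j => ?_, fun k c hc h1 => ?_, fun k k' c hc c' hc' h1 h2 => ?_⟩
  · refine tateTo_one.2 ((pole_iff_tate hp (hRH _) ?_).1 (h.pairs j)).1
    rw [dim_prod]
    have := d_le hX j
    omega
  · exact list_iff hRH hX (by rw [sum_listOf]) (h.even k c hc h1)
  · refine list_iff hRH hX ?_ (h.odd k k' c hc c' hc' h1 h2)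
    rw [List.map_append, List.sum_append, sum_listOf, sum_listOf]

theorem closure_of {n : Fin s → ℕ} {k : κ} {B : Set (Fin s → ℤ)}
    (h : Generates B (IsRelation p α n k)) :
    AddSubgroup.closure B = relations p α n k :=
  AddSubgroup.ext fun c => h c

variable [Fintype κ]

/-- **The products.** -/
theorem pole_products_iff [IsAlgClosed W.K] (hRH : ∀ Z : 𝒱.Obj, RiemannHyp Φ σ Z)
    (hX : HaveWeilNumbers (K := fun j => E (f j)) Φ α X d e) (hα : IsPNumber p α d)
    {L : IntermediateField ℚ Qb} (hE : NoRigidPairsOver E L) {B : κ → Set (Fin s → ℤ)}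
    (hB : ∀ k, Generates (B k) (IsRelation p α (degs Φ X e) k)) :
    (∀ Z, IsProduct W X Z → ∀ m ≤ Z.dim, PoleFormula Φ σ Z m) ↔
      ForGenerators (PoleFormula Φ σ) X d B := by
  have hp := (Fact.out : p.Prime).one_lt
  constructor
  · intro h
    have h1 : ∀ (l : List (Fin s)) (n : ℕ), n = (l.map d).sum / 2 → ForList (PoleFormula Φ σ) X l n := by
      intro l n hn i l' hl
      refine h _ (isProduct_prodOf X i l') _ ?_
      rw [hn]
      exact le_dim hX hl
    refine ⟨fun j => ?_, fun k c _ _ => ?_, fun k k' c _ c' _ _ _ => ?_⟩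
    · refine h _ (IsProduct.prod (IsProduct.base j) (IsProduct.base j)) _ ?_
      rw [dim_prod]
      have := d_le hX j
      omega
    · exact h1 _ _ (by rw [sum_listOf])
    · refine h1 _ _ ?_
      rw [List.map_append, List.sum_append, sum_listOf, sum_listOf]
  · intro h Z hZ m hm
    have hT := tate_of_pole hRH hX h
    let ι : Qb →+* PadicAlgCl p := (IsAlgClosed.lift : Qb →ₐ[ℚ] PadicAlgCl p).toRingHom
    have hTT := tateTimesP_gen (ι := ι) (PP := fun ν => ν = 1) hX hα hE hT (fun k => closure_of (hB k))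
      (fun ν hν => by
        rw [hν]
        exact inL_one _) (Or.inr fun ν hν => hν) hZ
    refine (pole_iff_tate hp (hRH _) hm).2 ⟨?_, ?_⟩
    · exact tateTo_one.1 ((tate_products_iff hX hα hE fun k => closure_of (hB k)).2 hT
        Z hZ 1 m)
    · exact homEqNumIn_of (homEqNum_of_tateTimesP hp hTT rfl) hm

/-- **The products with all varieties.** -/
theorem pole_times [IsAlgClosed W.K] (hRH : ∀ Z : 𝒱.Obj, RiemannHyp Φ σ Z)
    (hX : HaveWeilNumbers (K := fun j => E (f j)) Φ α X d e) (hα : IsPNumber p α d)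
    {L : IntermediateField ℚ Qb} (hE : NoRigidPairsOver E L) {B : κ → Set (Fin s → ℤ)}
    (h : ForGenerators (PoleFormula Φ σ) X d B)
    (hB : ∀ k, Generates (B k) (IsRelation p α (degs Φ X e) k))
    (hev : ∀ k, ∀ c ∈ B k, Even (degOf d c))
    (hZ : IsProduct W X Z) {U : 𝒱.Obj} (hU : FrobeniusSlopes Φ ι L U) :
    DefectsOfTimes Φ σ Z U := by
  have hp := (Fact.out : p.Prime).one_lt
  obtain ⟨Q, hQ, hLQ, hroot⟩ := hU
  have hTT := tateTimesP_gen (ι := ι) (PP := InL p ι L) hX hα hE (tate_of_pole hRH hX h)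
    (fun k => closure_of (hB k)) (fun ν hν => hν) (Or.inl hev) hZ
  have hU' : ∀ ν, Module.End.HasEigenvalue (W.map (Φ.Fr U)).toLinearMap ν → InL p ι L ν :=
    fun ν hν => ⟨Q, ν, 1, one_pos, hQ, hLQ, hroot ν hν, (pow_one ν).symm⟩
  refine defects_of_tateTimesP hp hRH hTT (inL_one L) (fun ν n hn h => inL_pow L ν n hn h)
    (fun z hz => ?_) hU'
  exact tens_of_tateTimesP hp hTT (inL_one L) (fun ν n hn h => inL_pow L ν n hn h) hU' hz

end Pool.Agent.Run7.h142.GP
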