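import Pool.Agent.Run7.h142.GT.Defs

/-!
# Test products of generators of the group of relations, for any property: definitions (helper142)
-/

set_option autoImplicit false

universe u v

namespace Pool.Agent.Run7.h142.GP

open Pool.Agent.H914 VarClass Obj Pool.Agent.Run7.h142.GT

/-- The integers `c j` are the coefficients of a linear relation between the normalized valuations of
the numbers `α j` which belong to the field `E k` (the coefficients of the other ones are zero). -/
def IsRelation (p : ℕ) [Fact p.Prime] {κ : Type} {E : κ → Type} [∀ k, Field (E k)] {s : ℕ}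
    {f : Fin s → κ} (α : ∀ j, E (f j)) (n : Fin s → ℕ) (k : κ) (c : Fin s → ℤ) : Prop :=
  (∀ j, f j ≠ k → c j = 0) ∧
    ∀ τ : (∀ k, E k →+* PadicAlgCl p), ∑ j, (c j : ℝ) * slope p α n j τ = 0

/-- The set `B` generates the additive group of the vectors with the property `R`. -/
def Generates {s : ℕ} (B : Set (Fin s → ℤ)) (R : (Fin s → ℤ) → Prop) : Prop :=
  ∀ c, c ∈ AddSubgroup.closure B ↔ R c

/-- The property `P` holds for the product of the varieties in the list, if it is not empty, and the
number `n`. -/
def ForList {k : Type u} [Field k] {𝒱 : VarClass k} (P : 𝒱.Obj → ℕ → Prop) {s : ℕ}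
    (X : Fin s → 𝒱.Obj) (l : List (Fin s)) (n : ℕ) : Prop :=
  ∀ i l', l = i :: l' → P (prodOf X i l') n

/-- The property `P` holds: for all `X j × X j` and `d j`; for each relation `c` of even degree
`deg c = ∑ |c j| d j` in one of the sets `B k`, for the product `X_c` of `|c j|` copies of each `X j`
and `deg c / 2`; and for two relations `c`, `c'` of odd degree in these sets, for the product
`X_c × X_c'` and `(deg c + deg c') / 2`. -/
structure ForGenerators {k : Type u} [Field k] {𝒱 : VarClass k} (P : 𝒱.Obj → ℕ → Prop)
    {κ : Type} {s : ℕ} (X : Fin s → 𝒱.Obj) (d : Fin s → ℕ) (B : κ → Set (Fin s → ℤ)) : Prop where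
  pairs : ∀ j, P ((X j).prod (X j)) (d j)
  even : ∀ k, ∀ c ∈ B k, Even (degOf d c) → ForList P X (listOf c) (degOf d c / 2)
  odd : ∀ k k', ∀ c ∈ B k, ∀ c' ∈ B k', Odd (degOf d c) → Odd (degOf d c') →
    ForList P X (listOf c ++ listOf c') ((degOf d c + degOf d c') / 2)

end Pool.Agent.Run7.h142.GP
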